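import Pool.Agent.W978.QN.Stm

/-!
# Project QN, part RK: for a smooth divisor all the matrices have rank at least two
-/

set_option autoImplicit false

namespace Pool.Agent.W597.QN

open Pool.Agent.W978.QN

theorem quad_zero (a b c : ℂ) : ∃ x y : ℂ, (x ≠ 0 ∨ y ≠ 0) ∧
    a * x ^ 2 + b * (x * y) + c * y ^ 2 = 0 := by
  by_cases ha : a = 0
  · exact ⟨1, 0, Or.inl one_ne_zero, by rw [ha]; ring⟩
  · obtain ⟨z, hz⟩ := IsAlgClosed.exists_pow_nat_eq (b ^ 2 - 4 * a * c) (n := 2) (by norm_num)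
    refine ⟨-b + z, 2 * a, Or.inr (mul_ne_zero two_ne_zero ha), ?_⟩
    linear_combination a * hz

theorem ker (α β γ δ : ℂ) (h : α * δ - β * γ = 0) : ∃ x y : ℂ, (x ≠ 0 ∨ y ≠ 0) ∧
    α * x + β * y = 0 ∧ γ * x + δ * y = 0 := by
  by_cases h1 : α = 0 ∧ β = 0
  · obtain ⟨hα, hβ⟩ := h1
    by_cases h2 : γ = 0 ∧ δ = 0
    · exact ⟨1, 0, Or.inl one_ne_zero, by rw [hα]; ring, by rw [h2.1]; ring⟩
    · refine ⟨-δ, γ, ?_, by rw [hα, hβ]; ring, by ring⟩
      by_contra hcon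
      push Not at hcon
      exact h2 ⟨hcon.2, neg_eq_zero.1 hcon.1⟩
  · refine ⟨-β, α, ?_, by ring, by linear_combination h⟩
    by_contra hcon
    push Not at hcon
    exact h1 ⟨hcon.2, neg_eq_zero.1 hcon.1⟩

/-- Two independent vectors on a plane. -/
theorem orth2 (l : Fin 3 → ℂ) : ∃ u v : Fin 3 → ℂ,
    l 0 * u 0 + l 1 * u 1 + l 2 * u 2 = 0 ∧ l 0 * v 0 + l 1 * v 1 + l 2 * v 2 = 0 ∧
    ∀ α β : ℂ, (α ≠ 0 ∨ β ≠ 0) → (fun j => α * u j + β * v j) ≠ 0 := by
  by_cases h0 : l 0 = 0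
  · by_cases h1 : l 1 = 0
    · refine ⟨![1, 0, 0], ![0, 1, 0], ?_, ?_, ?_⟩
      · simp [h0]
      · simp [h1]
      · intro α β h hz
        have e0 := congrFun hz 0
        have e1 := congrFun hz 1
        simp at e0 e1
        rcases h with h | h
        · exact h e0
        · exact h e1
    · refine ⟨![1, 0, 0], ![0, -l 2, l 1], ?_, ?_, ?_⟩
      · simp [h0]
      · simp [h0]
        ring
      · intro α β h hz
        have e0 := congrFun hz 0
        have e2 := congrFun hz 2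
        simp at e0 e2
        rcases h with h | h
        · exact h e0
        · rcases e2 with e2 | e2
          · exact h e2
          · exact h1 e2
  · refine ⟨![-l 1, l 0, 0], ![-l 2, 0, l 0], ?_, ?_, ?_⟩
    · simp
      ring
    · simp
      ring
    · intro α β h hz
      have e1 := congrFun hz 1
      have e2 := congrFun hz 2
      simp at e1 e2
      rcases h with h | h
      · rcases e1 with e1 | e1
        · exact h e1
        · exact h0 e1
      · rcases e2 with e2 | e2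
        · exact h e2
        · exact h0 e2

/-- Completion to a basis. -/
theorem basis3 (p : Fin 3 → ℂ) (hp : p ≠ 0) : ∃ v w : Fin 3 → ℂ, ∀ c : Fin 3 → ℂ,
    c 0 * p 0 + c 1 * p 1 + c 2 * p 2 = 0 → c 0 * v 0 + c 1 * v 1 + c 2 * v 2 = 0 →
    c 0 * w 0 + c 1 * w 1 + c 2 * w 2 = 0 → c 0 = 0 ∧ c 1 = 0 ∧ c 2 = 0 := by
  by_cases h0 : p 0 = 0
  · by_cases h1 : p 1 = 0
    · have h2 : p 2 ≠ 0 := by
        intro h2
        apply hp
        funext i
        fin_cases i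
        · exact h0
        · exact h1
        · exact h2
      refine ⟨![1, 0, 0], ![0, 1, 0], fun c e1 e2 e3 => ?_⟩
      simp at e2 e3
      rw [e2, e3, zero_mul, zero_mul, zero_add, zero_add] at e1
      exact ⟨e2, e3, (mul_eq_zero.1 e1).resolve_right h2⟩
    · refine ⟨![1, 0, 0], ![0, 0, 1], fun c e1 e2 e3 => ?_⟩
      simp at e2 e3
      rw [e2, e3, zero_mul, zero_mul, zero_add, add_zero] at e1
      exact ⟨e2, (mul_eq_zero.1 e1).resolve_right h1, e3⟩
  · refine ⟨![0, 1, 0], ![0, 0, 1], fun c e1 e2 e3 => ?_⟩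
    simp at e2 e3
    rw [e2, e3, zero_mul, zero_mul, add_zero, add_zero] at e1
    exact ⟨(mul_eq_zero.1 e1).resolve_right h0, e2, e3⟩

/-- Matrices with vanishing minors. -/
theorem rank1 (M : Fin 3 → Fin 3 → ℂ) (h : ∀ k k' j j', mnr M k k' j j' = 0) :
    ∃ m l : Fin 3 → ℂ, ∀ k j, M k j = m k * l j := by
  by_cases h0 : ∀ k j, M k j = 0
  · exact ⟨0, 0, fun k j => by simp [h0 k j]⟩
  · push Not at h0
    obtain ⟨k0, j0, hk⟩ := h0
    refine ⟨fun k => M k j0, fun j => M k0 j / M k0 j0, fun k j => ?_⟩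
    have h1 := h k k0 j j0
    unfold mnr at h1
    field_simp
    linear_combination h1

theorem cf_three (b : Fin 3 → Fin 3 → Fin 3 → ℤ) (p q r : Fin 3 → ℂ) :
    cf (fun i j k => (b i j k : ℂ)) p q r = ∑ j, ∑ k, mp b p k j * q j * r k := by
  unfold cf mp
  simp only [Fin.sum_univ_three]
  ring

theorem cf_first (b : Fin 3 → Fin 3 → Fin 3 → ℂ) (p q r : Fin 3 → ℂ) :
    cf b p q r = cf b (bv 0) q r * p 0 + cf b (bv 1) q r * p 1 + cf b (bv 2) q r * p 2 := by
  unfold cf bv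
  simp [Fin.sum_univ_three]
  ring

theorem cf_bil (b : Fin 3 → Fin 3 → Fin 3 → ℂ) (p u v s t : Fin 3 → ℂ) (α β γ δ : ℂ) :
    cf b p (fun j => α * u j + β * v j) (fun k => γ * s k + δ * t k) =
      (γ * cf b p u s + δ * cf b p u t) * α + (γ * cf b p v s + δ * cf b p v t) * β := by
  unfold cf
  simp only [Fin.sum_univ_three]
  ring

/-- A singular point from a matrix of rank at most one. -/
theorem core (b : Fin 3 → Fin 3 → Fin 3 → ℤ) (p : Fin 3 → ℂ) (hp : p ≠ 0)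
    (h : ∀ k k' j j', mnr (mp b p) k k' j j' = 0) :
    ∃ q r : Fin 3 → ℂ, q ≠ 0 ∧ r ≠ 0 ∧ (∀ v, cf (fun i j k => (b i j k : ℂ)) v q r = 0) ∧
      (∀ v, cf (fun i j k => (b i j k : ℂ)) p v r = 0) ∧
      ∀ v, cf (fun i j k => (b i j k : ℂ)) p q v = 0 := by
  obtain ⟨m, l, hml⟩ := rank1 _ h
  obtain ⟨u1, u2, hu1, hu2, hu⟩ := orth2 l
  obtain ⟨s1, s2, hs1, hs2, hs⟩ := orth2 m
  obtain ⟨v1, v2, hv⟩ := basis3 p hp
  set c : Fin 3 → Fin 3 → Fin 3 → ℂ := fun i j k => (b i j k : ℂ) with hc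
  obtain ⟨γ, δ, hγδ, hq⟩ := quad_zero
    (cf c v1 u1 s1 * cf c v2 u2 s1 - cf c v1 u2 s1 * cf c v2 u1 s1)
    (cf c v1 u1 s1 * cf c v2 u2 s2 + cf c v1 u1 s2 * cf c v2 u2 s1 -
      cf c v1 u2 s1 * cf c v2 u1 s2 - cf c v1 u2 s2 * cf c v2 u1 s1)
    (cf c v1 u1 s2 * cf c v2 u2 s2 - cf c v1 u2 s2 * cf c v2 u1 s2)
  obtain ⟨α, β, hαβ, k1, k2⟩ := ker (γ * cf c v1 u1 s1 + δ * cf c v1 u1 s2)
    (γ * cf c v1 u2 s1 + δ * cf c v1 u2 s2) (γ * cf c v2 u1 s1 + δ * cf c v2 u1 s2)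
    (γ * cf c v2 u2 s1 + δ * cf c v2 u2 s2) (by linear_combination hq)
  have hpq : ∀ q' r' : Fin 3 → ℂ, cf c p q' r' =
      (l 0 * q' 0 + l 1 * q' 1 + l 2 * q' 2) * (m 0 * r' 0 + m 1 * r' 1 + m 2 * r' 2) := by
    intro q' r'
    rw [hc, cf_three]
    simp only [hml, Fin.sum_univ_three]
    ring
  have h2 : ∀ v, cf c p v (fun k => γ * s1 k + δ * s2 k) = 0 := by
    intro v
    rw [hpq]
    linear_combination (l 0 * v 0 + l 1 * v 1 + l 2 * v 2) * (γ * hs1 + δ * hs2)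
  have h3 : ∀ v, cf c p (fun j => α * u1 j + β * u2 j) v = 0 := by
    intro v
    rw [hpq]
    linear_combination (m 0 * v 0 + m 1 * v 1 + m 2 * v 2) * (α * hu1 + β * hu2)
  refine ⟨fun j => α * u1 j + β * u2 j, fun k => γ * s1 k + δ * s2 k, hu α β hαβ, hs γ δ hγδ,
    ?_, h2, h3⟩
  have e0 := h2 (fun j => α * u1 j + β * u2 j)
  have e1 : cf c v1 (fun j => α * u1 j + β * u2 j) (fun k => γ * s1 k + δ * s2 k) = 0 := by
    rw [cf_bil]
    exact k1
  have e2 : cf c v2 (fun j => α * u1 j + β * u2 j) (fun k => γ * s1 k + δ * s2 k) = 0 := by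
    rw [cf_bil]
    exact k2
  rw [cf_first] at e0 e1 e2
  obtain ⟨f0, f1, f2⟩ := hv (fun i => cf c (bv i) (fun j => α * u1 j + β * u2 j)
    (fun k => γ * s1 k + δ * s2 k)) e0 e1 e2
  intro v
  rw [cf_first, f0, f1, f2]
  ring

/-- QN-RK. -/
theorem rk (hBR : S_BR) : S_RK := by
  intro a hS σ p hp
  by_contra hcon
  push Not at hcon
  obtain ⟨q, r, hq, hr, f1, f2, f3⟩ := core (cu a σ) p hp hcon
  have htf := hBR ℂ a σ
  set c : Fin 3 → Fin 3 → Fin 3 → ℂ := fun i j k => (cu a σ i j k : ℂ) with hc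
  set P : Fin 3 → Fin 3 → ℂ := fun m => (![p, q, r] : Fin 3 → Fin 3 → ℂ) (σ.symm m) with hP
  have P0 : P (σ 0) = p := by
    rw [hP]
    simp only [Equiv.symm_apply_apply]
    rfl
  have P1 : P (σ 1) = q := by
    rw [hP]
    simp only [Equiv.symm_apply_apply]
    rfl
  have P2 : P (σ 2) = r := by
    rw [hP]
    simp only [Equiv.symm_apply_apply]
    rfl
  have hall : ∀ m : Fin 3, m = σ 0 ∨ m = σ 1 ∨ m = σ 2 := by
    intro m
    obtain ⟨n, hn⟩ := σ.surjective m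
    rw [← hn]
    fin_cases n
    · exact Or.inl rfl
    · exact Or.inr (Or.inl rfl)
    · exact Or.inr (Or.inr rfl)
  have h01 : σ 0 ≠ σ 1 := fun h => absurd (σ.injective h) (by decide)
  have h02 : σ 0 ≠ σ 2 := fun h => absurd (σ.injective h) (by decide)
  have h12 : σ 1 ≠ σ 2 := fun h => absurd (σ.injective h) (by decide)
  have hPne : ∀ m, P m ≠ 0 := by
    intro m
    rcases hall m with h | h | h <;> rw [h]
    · rw [P0]; exact hp
    · rw [P1]; exact hq
    · rw [P2]; exact hr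
  obtain ⟨m, v, hv⟩ := hS P hPne (by rw [htf, P0, P1, P2]; exact f1 p)
  apply hv
  rw [htf]
  rcases hall m with h | h | h <;> subst h
  · rw [Function.update_self, Function.update_of_ne h01.symm, Function.update_of_ne h02.symm,
      P1, P2]
    exact f1 v
  · rw [Function.update_self, Function.update_of_ne h01, Function.update_of_ne h12.symm, P0, P2]
    exact f2 v
  · rw [Function.update_self, Function.update_of_ne h02, Function.update_of_ne h12, P0, P1]
    exact f3 v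

end Pool.Agent.W597.QN
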